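import Mathlib
import Pool.Agent.KS6_49.WC.Main

/-!
# Arbitrary finite schedules of returns in a weak cop win graph

There is a connected graph which is a weak cop win and in which the robber can follow every finite
schedule of distances from a vertex `v` (which depends only on the start of the cop). In
particular he can return to `v` any number of times, with arbitrarily long delays and arbitrarily
long excursions in between.
-/

set_option autoImplicit false

namespace Pool.Agent.Results.MP_70f359_co.ReturnSchedules

open Pool.Agent.KS6_49.WC

/-- **Arbitrary finite schedules of returns in a weak cop win graph.** Some connected graph is a
weak cop win and has the schedule property (the robber can follow every finite schedule of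
distances from a vertex `v` that depends only on the start of the cop), hence the multiple long
return property for every number of returns, and the double long return property. -/
theorem result : ∃ (V : Type) (G : SimpleGraph V), G.Connected ∧ WeakCopWin G ∧
    ScheduleProperty G ∧ MultipleReturnProperty G ∧ DoubleLongReturnProperty G :=
  ⟨Vt, Gr, Gr_connected, Gr_weak, Gr_schedule, Gr_schedule.multiple Gr_connected,
    (Gr_schedule.multiple Gr_connected).double⟩

end Pool.Agent.Results.MP_70f359_co.ReturnSchedules
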